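import Mathlib

set_option autoImplicit false

/-! The semiring of 3-tensors over a field with the restriction preorder. -/

namespace Pool.Agent.H286Z.Ten

universe u

/-- A 3-tensor in `F^n₁ ⊗ F^n₂ ⊗ F^n₃`, given by its format and its array of coordinates. -/
structure Tensor (F : Type u) where
  n₁ : ℕ
  n₂ : ℕ
  n₃ : ℕ
  val : Fin n₁ → Fin n₂ → Fin n₃ → F

variable {F : Type u} [Field F]

/-- Restriction: `S = (A ⊗ B ⊗ C) T` for some linear maps (matrices) `A, B, C`. -/
def Restricts (S T : Tensor F) : Prop :=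
  ∃ (A : Matrix (Fin S.n₁) (Fin T.n₁) F) (B : Matrix (Fin S.n₂) (Fin T.n₂) F)
    (C : Matrix (Fin S.n₃) (Fin T.n₃) F),
    ∀ i j k, S.val i j k = ∑ a, ∑ b, ∑ c, A i a * B j b * C k c * T.val a b c

/-- The direct sum of two tensors (block diagonal array). -/
def dsum (S T : Tensor F) : Tensor F where
  n₁ := S.n₁ + T.n₁
  n₂ := S.n₂ + T.n₂
  n₃ := S.n₃ + T.n₃
  val i j k :=
    match finSumFinEquiv.symm i, finSumFinEquiv.symm j, finSumFinEquiv.symm k with
    | .inl a, .inl b, .inl c => S.val a b c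
    | .inr a, .inr b, .inr c => T.val a b c
    | _, _, _ => 0

/-- The Kronecker product of two tensors. -/
def kron (S T : Tensor F) : Tensor F where
  n₁ := S.n₁ * T.n₁
  n₂ := S.n₂ * T.n₂
  n₃ := S.n₃ * T.n₃
  val i j k :=
    S.val (finProdFinEquiv.symm i).1 (finProdFinEquiv.symm j).1 (finProdFinEquiv.symm k).1 *
      T.val (finProdFinEquiv.symm i).2 (finProdFinEquiv.symm j).2 (finProdFinEquiv.symm k).2

/-- The unit tensor `⟨r⟩ = ∑ e_i ⊗ e_i ⊗ e_i`. -/
def unit (F : Type u) [Field F] (r : ℕ) : Tensor F where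
  n₁ := r
  n₂ := r
  n₃ := r
  val i j k := if i = j ∧ j = k then 1 else 0

/-- A point of the asymptotic spectrum: a monotone semiring homomorphism to the nonnegative
reals. -/
structure IsSpectralPoint (f : Tensor F → NNReal) : Prop where
  map_zero : f (unit F 0) = 0
  map_one : f (unit F 1) = 1
  map_add : ∀ S T, f (dsum S T) = f S + f T
  map_mul : ∀ S T, f (kron S T) = f S * f T
  mono : ∀ S T, Restricts S T → f S ≤ f T

/-- Condition (b). -/
def CondB (F : Type u) [Field F] : Prop :=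
  ∃ (c : {q : ℚ // 2 ≤ q} → Tensor F) (b : Tensor F) (s t : ℝ), 1 < s ∧ s < t ∧
    (∀ q r, q ≤ r → Restricts (c q) (c r)) ∧
    ∀ l ∈ Set.Icc s t, ∃ f : Tensor F → NNReal, IsSpectralPoint f ∧
      (∀ q, (f (c q) : ℝ) = (q.1 : ℝ)) ∧ (f b : ℝ) = l

/-- Every countable preorder order-embeds into the restriction preorder. -/
def CountablyUniversal (F : Type u) [Field F] : Prop :=
  ∀ (P : Type) [Preorder P] [Countable P],
    ∃ φ : P → Tensor F, ∀ x y, x ≤ y ↔ Restricts (φ x) (φ y)

end Pool.Agent.H286Z.Ten
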