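import Pool.Agent.H286Z.Ten.Defs

set_option autoImplicit false

namespace Pool.Agent.H286Z.Ten

open Matrix Kronecker

universe u

variable {F : Type u} [Field F]

/-- the action of three matrices on an array -/
def act {m₁ m₂ m₃ n₁ n₂ n₃ : ℕ} (A : Matrix (Fin m₁) (Fin n₁) F) (B : Matrix (Fin m₂) (Fin n₂) F)
    (C : Matrix (Fin m₃) (Fin n₃) F) (T : Fin n₁ → Fin n₂ → Fin n₃ → F) :
    Fin m₁ → Fin m₂ → Fin m₃ → F :=
  fun i j k => ∑ a, ∑ b, ∑ c, A i a * B j b * C k c * T a b c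

/-- the array as a vector -/
def vec {n₁ n₂ n₃ : ℕ} (T : Fin n₁ → Fin n₂ → Fin n₃ → F) : Fin n₁ × Fin n₂ × Fin n₃ → F :=
  fun p => T p.1 p.2.1 p.2.2

omit [Field F] in
theorem vec_inj {n₁ n₂ n₃ : ℕ} {S T : Fin n₁ → Fin n₂ → Fin n₃ → F} (h : vec S = vec T) :
    S = T := by
  funext i j k
  exact congrFun h (i, j, k)

theorem vec_act {m₁ m₂ m₃ n₁ n₂ n₃ : ℕ} (A : Matrix (Fin m₁) (Fin n₁) F)
    (B : Matrix (Fin m₂) (Fin n₂) F) (C : Matrix (Fin m₃) (Fin n₃) F)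
    (T : Fin n₁ → Fin n₂ → Fin n₃ → F) :
    vec (act A B C T) = (A ⊗ₖ (B ⊗ₖ C)) *ᵥ vec T := by
  funext p
  simp only [vec, act, mulVec, dotProduct, Fintype.sum_prod_type, kroneckerMap_apply, mul_assoc]

theorem act_act {l₁ l₂ l₃ m₁ m₂ m₃ n₁ n₂ n₃ : ℕ} (A' : Matrix (Fin l₁) (Fin m₁) F)
    (B' : Matrix (Fin l₂) (Fin m₂) F) (C' : Matrix (Fin l₃) (Fin m₃) F)
    (A : Matrix (Fin m₁) (Fin n₁) F)
    (B : Matrix (Fin m₂) (Fin n₂) F) (C : Matrix (Fin m₃) (Fin n₃) F)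
    (T : Fin n₁ → Fin n₂ → Fin n₃ → F) :
    act A' B' C' (act A B C T) = act (A' * A) (B' * B) (C' * C) T := by
  apply vec_inj
  rw [vec_act, vec_act, vec_act, mulVec_mulVec, mul_kronecker_mul, mul_kronecker_mul]

theorem act_one {n₁ n₂ n₃ : ℕ} (T : Fin n₁ → Fin n₂ → Fin n₃ → F) : act 1 1 1 T = T := by
  apply vec_inj
  rw [vec_act, one_kronecker_one, one_kronecker_one, one_mulVec]

theorem restricts_iff {S T : Tensor F} : Restricts S T ↔ ∃ A B C, S.val = act A B C T.val := by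
  constructor
  · rintro ⟨A, B, C, h⟩
    exact ⟨A, B, C, by funext i j k; exact h i j k⟩
  · rintro ⟨A, B, C, h⟩
    exact ⟨A, B, C, fun i j k => by rw [h]; rfl⟩

theorem Restricts.refl (T : Tensor F) : Restricts T T :=
  restricts_iff.2 ⟨1, 1, 1, (act_one _).symm⟩

theorem Restricts.trans {R S T : Tensor F} (h : Restricts R S) (h' : Restricts S T) :
    Restricts R T := by
  obtain ⟨A, B, C, h⟩ := restricts_iff.1 h
  obtain ⟨A', B', C', h'⟩ := restricts_iff.1 h'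
  exact restricts_iff.2 ⟨_, _, _, by rw [h, h', act_act]⟩

theorem factor {m n : ℕ} (A : Matrix (Fin m) (Fin n) F) :
    ∃ (r : ℕ) (A₁ : Matrix (Fin r) (Fin n) F) (A₂ : Matrix (Fin m) (Fin r) F)
      (L : Matrix (Fin r) (Fin m) F), A = A₂ * A₁ ∧ L * A₂ = 1 ∧ r ≤ n ∧
      (r = n → ∃ L' : Matrix (Fin n) (Fin m) F, L' * A = 1) := by
  let f := Matrix.toLin' A
  let e : LinearMap.range f ≃ₗ[F] (Fin (Module.finrank F (LinearMap.range f)) → F) :=
    (Module.finBasis F (LinearMap.range f)).equivFun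
  have hrn := LinearMap.finrank_range_add_finrank_ker f
  rw [Module.finrank_fin_fun] at hrn
  let g₂ : (Fin (Module.finrank F (LinearMap.range f)) → F) →ₗ[F] (Fin m → F) :=
    (LinearMap.range f).subtype ∘ₗ e.symm.toLinearMap
  have hg₂ : LinearMap.ker g₂ = ⊥ := by
    rw [LinearMap.ker_eq_bot]
    exact (LinearMap.range f).injective_subtype.comp e.symm.injective
  obtain ⟨l, hl⟩ := LinearMap.exists_leftInverse_of_injective g₂ hg₂
  refine ⟨_, LinearMap.toMatrix' (e.toLinearMap ∘ₗ f.rangeRestrict), LinearMap.toMatrix' g₂,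
    LinearMap.toMatrix' l, ?_, ?_, by omega, fun hr => ?_⟩
  · rw [← LinearMap.toMatrix'_comp]
    have : g₂ ∘ₗ (e.toLinearMap ∘ₗ f.rangeRestrict) = f := by
      ext1 x
      ext1
      simp [g₂]
    rw [this]
    simp [f]
  · rw [← LinearMap.toMatrix'_comp, hl, LinearMap.toMatrix'_id]
  · have hk : LinearMap.ker f = ⊥ := by
      rw [← Submodule.finrank_eq_zero]; omega
    obtain ⟨l', hl'⟩ := LinearMap.exists_leftInverse_of_injective f hk
    refine ⟨LinearMap.toMatrix' l', ?_⟩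
    have : A = LinearMap.toMatrix' f := by simp [f]
    rw [this, ← LinearMap.toMatrix'_comp, hl', LinearMap.toMatrix'_id]

theorem shrink {S T : Tensor F} (h : Restricts S T) (h' : ¬ Restricts T S) :
    ∃ S' : Tensor F, Restricts S S' ∧ Restricts S' S ∧
      S'.n₁ + S'.n₂ + S'.n₃ < T.n₁ + T.n₂ + T.n₃ := by
  obtain ⟨A, B, C, h⟩ := restricts_iff.1 h
  obtain ⟨r₁, A₁, A₂, LA, hA, hLA, hr₁, hA'⟩ := factor A
  obtain ⟨r₂, B₁, B₂, LB, hB, hLB, hr₂, hB'⟩ := factor B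
  obtain ⟨r₃, C₁, C₂, LC, hC, hLC, hr₃, hC'⟩ := factor C
  have h1 : S.val = act A₂ B₂ C₂ (act A₁ B₁ C₁ T.val) := by
    rw [act_act, ← hA, ← hB, ← hC, h]
  refine ⟨⟨r₁, r₂, r₃, act A₁ B₁ C₁ T.val⟩, restricts_iff.2 ⟨A₂, B₂, C₂, h1⟩,
    restricts_iff.2 ⟨LA, LB, LC, ?_⟩, ?_⟩
  · rw [h1, act_act LA, hLA, hLB, hLC, act_one]
  · by_contra hlt
    simp only [not_lt] at hlt
    obtain ⟨A', hA'⟩ := hA' (by omega)
    obtain ⟨B', hB'⟩ := hB' (by omega)
    obtain ⟨C', hC'⟩ := hC' (by omega)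
    exact h' (restricts_iff.2 ⟨A', B', C', by rw [h, act_act, hA', hB', hC', act_one]⟩)

theorem no_descending (x : ℕ → Tensor F) (h : ∀ n, Restricts (x (n + 1)) (x n))
    (h' : ∀ n, ¬ Restricts (x n) (x (n + 1))) : False := by
  have key : ∀ N n : ℕ, ∀ T : Tensor F, Restricts T (x n) → Restricts (x n) T →
      N ≤ T.n₁ + T.n₂ + T.n₃ := by
    intro N
    induction N with
    | zero => intros; omega
    | succ N ih =>
      intro n T h1 h2
      obtain ⟨S', h3, h4, h5⟩ := shrink ((h n).trans h2) (fun h6 => h' n (h2.trans h6))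
      have := ih (n + 1) S' h4 h3
      omega
  have := key ((x 0).n₁ + (x 0).n₂ + (x 0).n₃ + 1) 0 (x 0) (Restricts.refl _) (Restricts.refl _)
  omega

theorem not_universal : ¬ CountablyUniversal F := by
  intro h
  obtain ⟨φ, hφ⟩ := h ℤ
  refine no_descending (fun n => φ (-(n : ℤ))) (fun n => (hφ _ _).1 (by push_cast; omega))
    (fun n hn => ?_)
  have := (hφ _ _).2 hn
  push_cast at this
  omega

theorem not_condB : ¬ CondB F := by
  rintro ⟨c, b, s, t, -, hst, hc, hf⟩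
  obtain ⟨f, hf, hq, -⟩ := hf s ⟨le_rfl, hst.le⟩
  have hpos : ∀ n : ℕ, (2 : ℚ) ≤ 2 + 1 / ((n : ℚ) + 1) := fun n => by
    have : (0 : ℚ) < 1 / ((n : ℚ) + 1) := by positivity
    linarith
  have hlt : ∀ n : ℕ, (2 : ℚ) + 1 / (((n + 1 : ℕ) : ℚ) + 1) < 2 + 1 / ((n : ℚ) + 1) := fun n => by
    have : 1 / (((n + 1 : ℕ) : ℚ) + 1) < 1 / ((n : ℚ) + 1) :=
      one_div_lt_one_div_of_lt (by positivity) (by push_cast; linarith)
    linarith
  refine no_descending (fun n => c ⟨2 + 1 / ((n : ℚ) + 1), hpos n⟩)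
    (fun n => hc _ _ (hlt n).le) (fun n hn => ?_)
  have h1 := hf.mono _ _ hn
  have h2 : (f (c ⟨2 + 1 / ((n : ℚ) + 1), hpos n⟩) : ℝ) ≤
      f (c ⟨2 + 1 / (((n + 1 : ℕ) : ℚ) + 1), hpos (n + 1)⟩) := by exact_mod_cast h1
  rw [hq, hq] at h2
  have h3 : (2 : ℚ) + 1 / ((n : ℚ) + 1) ≤ 2 + 1 / (((n + 1 : ℕ) : ℚ) + 1) := by
    exact_mod_cast h2
  exact absurd (hlt n) (not_lt.2 h3)

end Pool.Agent.H286Z.Ten
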